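import Pool.Agent.N641.VB.Stm7

/-!
Project VB (helper641), part DPC: closure properties of definability with parameters (helper56).
-/

set_option autoImplicit false

namespace Pool.Agent.N56.VB

open FirstOrder FirstOrder.Language Pool.Agent.N641.VB

section

variable {L : FirstOrder.Language.{0, 0}} {U : Type} [S : L.Structure U]

lemma defP_iff {α : Type} (s : (α → U) → Prop) :
    DefP S s ↔ (Set.univ : Set U).Definable L {v : α → U | s v} := by
  constructor
  · rintro ⟨n, p, φ, hφ⟩
    rw [Set.definable_iff_exists_formula_sum]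
    refine ⟨φ.relabel (Sum.map (fun i => (⟨p i, trivial⟩ : (Set.univ : Set U))) id), ?_⟩
    ext v
    rw [Set.mem_ofPred_eq, Set.mem_ofPred_eq, Formula.realize_relabel, ← hφ v]
    have he : (Sum.elim (fun x : (Set.univ : Set U) => (x : U)) v) ∘
        (Sum.map (fun i => (⟨p i, trivial⟩ : (Set.univ : Set U))) id) = Sum.elim p v := by
      funext x
      cases x <;> rfl
    rw [he]
  · intro h
    obtain ⟨A0, -, h0⟩ := Set.definable_iff_finitely_definable.1 h
    obtain ⟨φ, hφ⟩ := Set.definable_iff_exists_formula_sum.1 h0
    obtain ⟨n, ⟨e⟩⟩ := Finite.exists_equiv_fin ((A0 : Set U) : Type)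
    refine ⟨n, fun i => (e.symm i : U), φ.relabel (Sum.map e id), fun v => ?_⟩
    have h1 : s v ↔ v ∈ {v : α → U | s v} := Iff.rfl
    rw [h1, hφ, Set.mem_ofPred_eq, Formula.realize_relabel]
    have he : (Sum.elim (fun i => (e.symm i : U)) v) ∘ (Sum.map e id) =
        Sum.elim (fun x : (A0 : Set U) => (x : U)) v := by
      funext x
      cases x with
      | inl x => simp
      | inr x => rfl
    rw [he]

lemma of_formula {α : Type} (s : (α → U) → Prop) (φ : L.Formula α)
    (h : ∀ v, φ.Realize v ↔ s v) : DefP S s := by
  refine ⟨0, Fin.elim0, φ.relabel Sum.inr, fun v => ?_⟩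
  rw [Formula.realize_relabel, ← h v]
  rfl

end

theorem DPC : S_DPC := by
  intro L U S
  letI := S
  refine ⟨?_, ?_, ?_, ?_, ?_, ?_, ?_, ?_, ?_, ?_, ?_, ?_⟩
  · intro α s hs
    rw [defP_iff] at hs ⊢
    exact hs.compl
  · intro α s t hs ht
    rw [defP_iff] at hs ht ⊢
    exact hs.inter ht
  · intro α s t hs ht
    rw [defP_iff] at hs ht ⊢
    exact hs.union ht
  · intro α s t hs ht
    rw [defP_iff] at hs ht ⊢
    have h := hs.compl.union ht
    have he : {v : α → U | s v → t v} = {v : α → U | s v}ᶜ ∪ {v : α → U | t v} := by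
      ext v
      change (s v → t v) ↔ (¬ s v ∨ t v)
      tauto
    rw [he]
    exact h
  · intro α β s h hs
    rw [defP_iff] at hs ⊢
    exact hs.preimage_comp h
  · intro α β _ s hs
    rw [defP_iff] at hs
    constructor
    · rw [defP_iff]
      exact hs.exists_of_finite
    · rw [defP_iff]
      exact hs.forall_of_finite
  · intro α ι _ s hs
    have hs' : ∀ i, (Set.univ : Set U).Definable L {v : α → U | s i v} := fun i =>
      (defP_iff (s i)).1 (hs i)
    constructor
    · rw [defP_iff]
      have he : {v : α → U | ∀ i, s i v} = ⋂ i, {v : α → U | s i v} := by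
        ext v
        rw [Set.mem_iInter]
        exact Iff.rfl
      rw [he]
      exact Set.definable_iInter_of_finite hs'
    · rw [defP_iff]
      have he : {v : α → U | ∃ i, s i v} = ⋃ i, {v : α → U | s i v} := by
        ext v
        rw [Set.mem_iUnion]
        exact Iff.rfl
      rw [he]
      exact Set.definable_iUnion_of_finite hs'
  · intro α i j
    exact of_formula _ (Term.equal (Term.var i) (Term.var j)) (fun v => by simp)
  · intro α i c
    refine ⟨1, fun _ => c, Term.equal (Term.var (Sum.inr i)) (Term.var (Sum.inl 0)), fun v => ?_⟩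
    simp
  · intro α l R h
    refine of_formula _ (R.formula (fun i => Term.var (h i))) (fun v => ?_)
    rw [Formula.realize_rel]
    rfl
  · intro α l F h j
    refine of_formula _ (Term.equal (Term.func F (fun i => Term.var (h i))) (Term.var j))
      (fun v => ?_)
    rw [Formula.realize_equal, Term.realize_func]
    rfl
  · intro α P
    by_cases hP : P
    · exact of_formula _ ⊤ (fun v => by simp [hP])
    · exact of_formula _ ⊥ (fun v => by simp [hP])

end Pool.Agent.N56.VB
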